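import Mathlib
import Pool.Agent.H23.GcdAbs

open Pool.Agent.H23.GcdRun

theorem Pool.Agent.Results.MP_9227d9_nt.Zeros.full
    (m : ℕ) (hm : 1 ≤ m) (a : ℕ → ℤ)
    (hrec : ∀ n : ℕ, 2 ≤ n →
      a n = |a (n - 1) - Int.gcd (a (n - 1)) ((n : ℤ) * ((n : ℤ) + 2 * m))|) :
    (∀ N, ∃ n, N ≤ n ∧ a n = 0) ∧
    ∀ n₁ n₂ : ℕ, 1 ≤ n₁ → n₁ < n₂ → a n₁ = 0 → a n₂ = 0 → (∀ k, n₁ < k → k < n₂ → a k ≠ 0) →
      (∀ r : ℕ, r.Prime → r ∣ (n₂ + 1) * (n₂ + 2 * m + 1) →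
        3 * n₂ < r + 2 * ((n₁ + 1) * (n₁ + 2 * m + 1)) + 3 * (n₁ + 1)) ∧
      (((n₂ + 1).Prime ∧ (n₂ + 2 * m + 1).Prime) ∨
        3 * n₂ ≤ 2 * ((n₁ + 1) * (n₁ + 2 * m + 1)) + 4 * n₁ + m + 4) := by
  refine ⟨exists_zero a (fun n => (n : ℤ) * ((n : ℤ) + 2 * m)) hrec, ?_⟩
  intro n₁ n₂ h1 h12 hz1 hz2 hmid
  have hR : ∀ k : ℕ, 2 ≤ k → (0 : ℤ) < (k : ℤ) * ((k : ℤ) + 2 * m) := by
    intro k hk
    have h2 : (0 : ℤ) < k := by exact_mod_cast (by omega : 0 < k)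
    positivity
  obtain ⟨hA, hrun⟩ :=
    run_of_abs a (fun n => (n : ℤ) * ((n : ℤ) + 2 * m)) hR hrec n₁ n₂ h1 h12 hz1 hz2 hmid
  have hfac : ∀ r : ℕ, r.Prime → r ∣ (n₂ + 1) * (n₂ + 2 * m + 1) →
      3 * (n₂ : ℤ) < r + 2 * (((n₁ : ℤ) + 1) * (n₁ + 2 * m + 1)) + 3 * (n₁ + 1) := by
    intro r hr hd
    have hd' : (r : ℤ) ∣ ((n₂ : ℤ) + 1) * ((n₂ : ℤ) + 1 + 2 * m) := by
      have := Int.natCast_dvd_natCast.mpr hd
      push_cast at this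
      have e : ((n₂ : ℤ) + 1 + 2 * m) = n₂ + 2 * m + 1 := by ring
      rw [e]
      exact this
    have := hrun.factor (fun P => P * (P + 2 * m)) (fun n => (n : ℤ) * ((n : ℤ) + 2 * m))
      (fun _ _ => rfl) (fun P k => ⟨P + k + 2 * m, by ring⟩)
      (fun k hk => (hR k (by omega)).ne') r hr hd'
    rw [hA] at this
    push_cast at this
    linarith
  refine ⟨fun r hr hd => by exact_mod_cast hfac r hr hd, ?_⟩
  by_cases hc : 3 * n₂ ≤ 2 * ((n₁ + 1) * (n₁ + 2 * m + 1)) + 4 * n₁ + m + 4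
  · exact Or.inr hc
  left
  have hc' : 2 * (((n₁ : ℤ) + 1) * (n₁ + 2 * m + 1)) + 4 * n₁ + m + 5 ≤ 3 * n₂ := by
    exact_mod_cast (by omega : 2 * ((n₁ + 1) * (n₁ + 2 * m + 1)) + 4 * n₁ + m + 5 ≤ 3 * n₂)
  have hmo := hrun.mono' le_rfl hrun.le le_rfl
  rw [hA, hz2] at hmo
  push_cast at hmo
  have h0 : (0 : ℤ) ≤ n₁ := by positivity
  have h0' : (0 : ℤ) ≤ m := by positivity
  have hb : (n₂ : ℤ) + 2 * m + 1 ≤ ((n₁ : ℤ) + m + 2) ^ 2 := by nlinarith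
  constructor
  · apply prime_of_factors (n₂ + 1) (by omega) ((n₁ : ℤ) + m + 2) (by linarith)
      (by push_cast; linarith)
    intro r hr hd
    have := hfac r hr (hd.mul_right _)
    linarith
  · apply prime_of_factors (n₂ + 2 * m + 1) (by omega) ((n₁ : ℤ) + m + 2) (by linarith)
      (by push_cast; linarith)
    intro r hr hd
    have := hfac r hr (hd.mul_left _)
    linarith

theorem Pool.Agent.Results.MP_9227d9_nt.Zeros.result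
    (m : ℕ) (hm : 1 ≤ m) (a : ℕ → ℤ)
    (hrec : ∀ n : ℕ, 2 ≤ n →
      a n = |a (n - 1) - Int.gcd (a (n - 1)) ((n : ℤ) * ((n : ℤ) + 2 * m))|) :
    ∀ N, ∃ n, N ≤ n ∧ a n = 0 :=
  (Pool.Agent.Results.MP_9227d9_nt.Zeros.full m hm a hrec).1
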